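import Mathlib
import Pool.Agent.Q147.HaarSmall

/-!
# MP_ea2cf4_gt : a closed Haar-null set not covered by countably many Borel null-finite sets
-/

namespace Pool.Agent.Results.MP_ea2cf4_gt.ClosedHaarNullNotCovered

open MeasureTheory Pool.Agent.Q147.NF

/-- There are an abelian Polish group (which is even compact) and a closed Haar-null subset of it
that is not covered by countably many Borel null-finite subsets. -/
theorem result : ∃ (X : Type) (_ : AddCommGroup X) (_ : TopologicalSpace X),
    IsTopologicalAddGroup X ∧ PolishSpace X ∧ CompactSpace X ∧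
    ∃ F : Set X, IsClosed F ∧ HaarNull F ∧
      ¬ ∃ B : ℕ → Set X, (∀ i, MeasurableSet[borel X] (B i) ∧ NullFinite (B i)) ∧
        F ⊆ ⋃ i, B i := by
  refine ⟨X0, inferInstance, inferInstance, inferInstance, inferInstance, inferInstance, A0,
    isClosed_A0, haarNull_A0, ?_⟩
  rintro ⟨B, hB, h⟩
  exact not_covered B (fun i => (hB i).1) (fun i => (hB i).2) h

end Pool.Agent.Results.MP_ea2cf4_gt.ClosedHaarNullNotCovered
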